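import Mathlib

/-!
# Fractional dimension of the convex geometries `P(k, n)`

A random linear extension built from biased coins shows
`fdim (P(k, n)) ≤ (k + 1) ^ (k + 1) / k ^ k`, which is bounded away from `2 ^ (k + 1)` for `k ≥ 2`.
-/

namespace Pool.Agent.Results.MP_4df60b_co.BiasedCoins

open Finset

/-- Linear extensions of a finite poset, as order preserving bijections onto
`{0, 1, …, |P| - 1}`. -/
abbrev LinExt (P : Type) [Fintype P] [PartialOrder P] : Type :=
  {L : P ≃ Fin (Fintype.card P) // Monotone L}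

noncomputable instance (P : Type) [Fintype P] [PartialOrder P] : Fintype (LinExt P) :=
  Fintype.ofFinite _

open Classical in
/-- A fractional realizer: a weighting `w ≥ 0` of the linear extensions such that every ordered
pair `(a, b)` of incomparable elements has weight at least `1` on the linear extensions with
`a > b`. -/
def IsFracRealizer (P : Type) [Fintype P] [PartialOrder P] (w : LinExt P → ℝ) : Prop :=
  (∀ L, 0 ≤ w L) ∧
    ∀ a b : P, ¬ a ≤ b → ¬ b ≤ a → 1 ≤ ∑ L ∈ univ.filter (fun L : LinExt P => L.1 b < L.1 a), w L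

open Classical in
/-- The fractional dimension of a finite poset (`1` for a chain). -/
noncomputable def fdim (P : Type) [Fintype P] [PartialOrder P] : ℝ :=
  if ∀ a b : P, a ≤ b ∨ b ≤ a then 1
  else sInf {s : ℝ | ∃ w : LinExt P → ℝ, IsFracRealizer P w ∧ s = ∑ L, w L}

/-- The family `P(k, n)`: the sets `A ⊆ [n]` such that `[i - 1] ⊆ A` whenever
`|A| = k + i - 1`; it is a poset by inclusion. -/
def P (k n : ℕ) : Finset (Finset ℕ) :=
  (Icc 1 n).powerset.filter
    (fun A => ∀ i ∈ range (n + 2), A.card + 1 = k + i → Icc 1 (i - 1) ⊆ A)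

/-- A linear extension refining a monotone map to `ℕ`. -/
theorem exists_linExt {P : Type} [Fintype P] [PartialOrder P] (p : P → ℕ) (hp : Monotone p) :
    ∃ L : LinExt P, ∀ a b, p a < p b → L.1 a < L.1 b := by
  classical
  let f : P → ℕ ×ₗ LinearExtension P := fun a => toLex (p a, toLinearExtension a)
  have hf : Function.Injective f := by
    intro a b h
    have h2 : (toLinearExtension a : LinearExtension P) = toLinearExtension b :=
      congrArg (fun z => (ofLex z).2) h
    exact h2
  have hmono : ∀ a b, a ≤ b → f a ≤ f b := by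
    intro a b hab
    rw [Prod.Lex.toLex_le_toLex]
    rcases (hp hab).lt_or_eq with h | h
    · exact Or.inl h
    · exact Or.inr ⟨h, toLinearExtension.monotone hab⟩
  have hlt : ∀ a b, p a < p b → f a < f b := by
    intro a b hab
    rw [Prod.Lex.toLex_lt_toLex]
    exact Or.inl hab
  let s : Finset (ℕ ×ₗ LinearExtension P) := univ.image f
  have hs : s.card = Fintype.card P := by
    rw [card_image_of_injective _ hf, card_univ]
  let e : Fin (Fintype.card P) ≃o s := s.orderIsoOfFin hs
  let g : P → s := fun a => ⟨f a, mem_image_of_mem f (mem_univ a)⟩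
  have hg : Function.Bijective g := by
    constructor
    · intro a b h
      exact hf (congrArg Subtype.val h)
    · rintro ⟨z, hz⟩
      obtain ⟨a, _, rfl⟩ := mem_image.1 hz
      exact ⟨a, rfl⟩
  refine ⟨⟨(Equiv.ofBijective g hg).trans e.symm.toEquiv, ?_⟩, ?_⟩
  · intro a b hab
    exact e.symm.monotone (hmono a b hab)
  · intro a b hab
    exact e.symm.strictMono (hlt a b hab)

/-- The position of a set `A` for the set `S` of heads. -/
def pos (k : ℕ) (S A : Finset ℕ) : ℕ := max (2 * (A.card + 1 - k)) ((A ∩ S).sup fun b => 2 * b + 1)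

theorem pos_mono (k : ℕ) (S : Finset ℕ) {A A' : Finset ℕ} (h : A ⊆ A') :
    pos k S A ≤ pos k S A' := by
  unfold pos
  apply max_le_max
  · have := card_le_card h
    omega
  · exact sup_mono (inter_subset_inter_right h)

theorem prob_identity (n : ℕ) (h : ℝ) (b : ℕ) (B : Finset ℕ) (hb : b ∈ Icc 1 n)
    (hB : B ⊆ Icc 1 n) (hbB : b ∉ B) :
    ∑ S ∈ (Icc 1 n).powerset.filter (fun S => b ∈ S ∧ Disjoint S B),
      h ^ S.card * (1 - h) ^ (n - S.card) = h * (1 - h) ^ B.card := by
  have h1 := Finset.prod_add (fun i : ℕ => if i ∈ B then (0 : ℝ) else h)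
    (fun i : ℕ => if i = b then (0 : ℝ) else 1 - h) (Icc 1 n)
  have h2 : ∏ i ∈ Icc 1 n, ((if i ∈ B then (0 : ℝ) else h) + (if i = b then (0 : ℝ) else 1 - h))
      = h * (1 - h) ^ B.card := by
    have h3 : ∀ i ∈ Icc 1 n, ((if i ∈ B then (0 : ℝ) else h) + (if i = b then (0 : ℝ) else 1 - h))
        = (if i ∈ B then (1 - h) else 1) * (if i = b then h else 1) := by
      intro i _
      by_cases hiB : i ∈ B
      · have : i ≠ b := fun hh => hbB (hh ▸ hiB)
        simp [hiB, this]
      · by_cases hib : i = b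
        · simp [hib, hbB]
        · simp [hiB, hib]
    rw [prod_congr rfl h3, prod_mul_distrib, prod_ite_eq' (Icc 1 n) b, if_pos hb, prod_ite,
      prod_const, prod_const_one, mul_one, mul_comm]
    congr 3
    ext i
    simp only [mem_filter]
    exact ⟨fun hh => hh.2, fun hh => ⟨hB hh, hh⟩⟩
  rw [← h2, h1, sum_filter]
  refine sum_congr rfl fun S hS => ?_
  have hSn : S ⊆ Icc 1 n := mem_powerset.1 hS
  by_cases hc : b ∈ S ∧ Disjoint S B
  · rw [if_pos hc]
    have e1 : ∏ i ∈ S, (if i ∈ B then (0 : ℝ) else h) = h ^ S.card := by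
      rw [prod_congr rfl (g := fun _ => h), prod_const]
      intro i hi
      rw [if_neg (Finset.disjoint_left.1 hc.2 hi)]
    have e2 : ∏ i ∈ Icc 1 n \ S, (if i = b then (0 : ℝ) else 1 - h) = (1 - h) ^ (n - S.card) := by
      rw [prod_congr rfl (g := fun _ => 1 - h), prod_const, card_sdiff_of_subset hSn,
        Nat.card_Icc, Nat.add_sub_cancel]
      intro i hi
      rw [if_neg]
      rintro rfl
      exact (mem_sdiff.1 hi).2 hc.1
    rw [e1, e2]
  · rw [if_neg hc]
    symm
    by_cases hbS : b ∈ S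
    · have : ¬ Disjoint S B := fun hd => hc ⟨hbS, hd⟩
      rw [Finset.not_disjoint_iff] at this
      obtain ⟨i, hiS, hiB⟩ := this
      rw [prod_eq_zero hiS (by simp [hiB]), zero_mul]
    · rw [prod_eq_zero (i := b) (s := Icc 1 n \ S) (by simp [hbS]; simpa using hb) (by simp),
        mul_zero]

theorem total_identity (n : ℕ) (h : ℝ) :
    ∑ S ∈ (Icc 1 n).powerset, h ^ S.card * (1 - h) ^ (n - S.card) = 1 := by
  have h1 := Finset.prod_add (fun _ : ℕ => h) (fun _ : ℕ => 1 - h) (Icc 1 n)
  have h2 : ∏ i ∈ Icc 1 n, (h + (1 - h)) = 1 := by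
    apply prod_eq_one; intro i _; ring
  refine (sum_congr rfl fun S hS => ?_).trans (h1.symm.trans h2)
  rw [prod_const, prod_const, card_sdiff_of_subset (mem_powerset.1 hS), Nat.card_Icc,
    Nat.add_sub_cancel]

/-- Existence of a cheap fractional realizer. -/
theorem exists_realizer (k n : ℕ) (h : ℝ) (h0 : 0 < h) (h1 : h < 1) :
    ∃ w : LinExt (P k n) → ℝ, IsFracRealizer (P k n) w ∧
      ∑ L, w L = 1 / (h * (1 - h) ^ k) := by
  classical
  have hmono : ∀ S : Finset ℕ, Monotone (fun A : P k n => pos k S A.1) :=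
    fun S A A' hA => pos_mono k S hA
  choose L hL using fun S : Finset ℕ => exists_linExt _ (hmono S)
  have hpos : 0 < h * (1 - h) ^ k := mul_pos h0 (pow_pos (by linarith) k)
  let wt : Finset ℕ → ℝ := fun S => 1 / (h * (1 - h) ^ k) * (h ^ S.card * (1 - h) ^ (n - S.card))
  have hwt : ∀ S, 0 ≤ wt S := fun S =>
    mul_nonneg (by positivity) (mul_nonneg (by positivity) (pow_nonneg (by linarith) _))
  refine ⟨fun l => ∑ S ∈ (Icc 1 n).powerset.filter (fun S => L S = l), wt S, ⟨?_, ?_⟩, ?_⟩
  · intro l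
    exact sum_nonneg fun S _ => hwt S
  · intro X Y hXY hYX
    obtain ⟨b, hbX, hbY⟩ := Finset.not_subset.1 (show ¬ X.1 ⊆ Y.1 from hXY)
    have hXn : X.1 ⊆ Icc 1 n := mem_powerset.1 (mem_filter.1 X.2).1
    have hYn : Y.1 ⊆ Icc 1 n := mem_powerset.1 (mem_filter.1 Y.2).1
    have hYc := (mem_filter.1 Y.2).2
    have hb1 := mem_Icc.1 (hXn hbX)
    -- the initial segment of `Y`
    have hcardY : Y.1.card ≤ n := by
      have := card_le_card hYn
      rwa [Nat.card_Icc, Nat.add_sub_cancel] at this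
    have hseg : Icc 1 (Y.1.card + 1 - k - 1) ⊆ Y.1 := by
      by_cases hk : k ≤ Y.1.card
      · exact hYc (Y.1.card + 1 - k) (mem_range.2 (by omega)) (by omega)
      · have : Y.1.card + 1 - k - 1 = 0 := by omega
        rw [this]; simp
    set m := Y.1.card + 1 - k with hm
    have hbm : m ≤ b := by
      by_contra hc
      exact hbY (hseg (mem_Icc.2 ⟨hb1.1, by omega⟩))
    set B := Y.1 \ Icc 1 (m - 1) with hBdef
    have hBcard : B.card ≤ k := by
      rw [hBdef, card_sdiff_of_subset hseg, Nat.card_Icc]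
      omega
    have hBn : B ⊆ Icc 1 n := sdiff_subset.trans hYn
    have hbB : b ∉ B := fun hh => hbY (mem_sdiff.1 hh).1
    -- the good events
    have hgood : ∀ S, b ∈ S ∧ Disjoint S B → (L S).1 Y < (L S).1 X := by
      rintro S ⟨hbS, hd⟩
      apply hL
      show pos k S Y.1 < pos k S X.1
      have h2 : 2 * b + 1 ≤ pos k S X.1 :=
        le_max_of_le_right (le_sup (f := fun b => 2 * b + 1) (mem_inter.2 ⟨hbX, hbS⟩))
      have h3 : pos k S Y.1 ≤ 2 * m := by
        refine max_le le_rfl (Finset.sup_le fun c hc => ?_)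
        obtain ⟨hcY, hcS⟩ := mem_inter.1 hc
        have hcm : c ≤ m - 1 := by
          by_contra hcc
          refine Finset.disjoint_left.1 hd hcS (mem_sdiff.2 ⟨hcY, fun hh => ?_⟩)
          have := (mem_Icc.1 hh).2
          omega
        have := (mem_Icc.1 (hYn hcY)).1
        show 2 * c + 1 ≤ 2 * m
        omega
      omega
    have hstep : ∑ l ∈ univ.filter (fun l : LinExt (P k n) => l.1 Y < l.1 X),
        (∑ S ∈ (Icc 1 n).powerset.filter (fun S => L S = l), wt S)
        = ∑ S ∈ (Icc 1 n).powerset.filter (fun S => (L S).1 Y < (L S).1 X), wt S := by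
      rw [sum_filter, sum_filter]
      have : ∀ l : LinExt (P k n), (if l.1 Y < l.1 X then
          (∑ S ∈ (Icc 1 n).powerset.filter (fun S => L S = l), wt S) else 0)
          = ∑ S ∈ (Icc 1 n).powerset.filter (fun S => L S = l),
            (if (L S).1 Y < (L S).1 X then wt S else 0) := by
        intro l
        split_ifs with hl
        · refine sum_congr rfl fun S hS => ?_
          rw [(mem_filter.1 hS).2, if_pos hl]
        · refine (sum_eq_zero fun S hS => ?_).symm
          rw [(mem_filter.1 hS).2, if_neg hl]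
      rw [sum_congr rfl (fun l _ => this l)]
      exact sum_fiberwise _ _ _
    have hle : ∑ S ∈ (Icc 1 n).powerset.filter (fun S => b ∈ S ∧ Disjoint S B), wt S
        ≤ ∑ S ∈ (Icc 1 n).powerset.filter (fun S => (L S).1 Y < (L S).1 X), wt S := by
      apply sum_le_sum_of_subset_of_nonneg
      · intro S hS
        rw [mem_filter] at hS ⊢
        exact ⟨hS.1, hgood S hS.2⟩
      · intro S _ _
        exact hwt S
    have hval : ∑ S ∈ (Icc 1 n).powerset.filter (fun S => b ∈ S ∧ Disjoint S B), wt S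
        = 1 / (h * (1 - h) ^ k) * (h * (1 - h) ^ B.card) := by
      rw [← prob_identity n h b B (hXn hbX) hBn hbB, mul_sum]
    have hpow : (1 - h) ^ k ≤ (1 - h) ^ B.card :=
      pow_le_pow_of_le_one (by linarith) (by linarith) hBcard
    have hfin : 1 ≤ 1 / (h * (1 - h) ^ k) * (h * (1 - h) ^ B.card) := by
      rw [one_div, inv_mul_eq_div, one_le_div hpos]
      exact mul_le_mul_of_nonneg_left hpow h0.le
    calc (1 : ℝ) ≤ _ := hfin
      _ = _ := hval.symm
      _ ≤ _ := hle
      _ = _ := hstep.symm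
      _ ≤ _ := le_of_eq (by congr)
  · show ∑ l, ∑ S ∈ (Icc 1 n).powerset.filter (fun S => L S = l), wt S = _
    rw [sum_fiberwise, ← mul_sum, total_identity, mul_one]

/-- The upper bound `(k + 1) ^ (k + 1) / k ^ k` for the fractional dimension. -/
theorem fdim_le (k n : ℕ) (hk : 1 ≤ k) :
    fdim (P k n) ≤ ((k : ℝ) + 1) ^ (k + 1) / (k : ℝ) ^ k := by
  have hk0 : (0 : ℝ) < k := by exact_mod_cast hk
  have e : 1 / (1 / ((k : ℝ) + 1) * (1 - 1 / ((k : ℝ) + 1)) ^ k)
      = ((k : ℝ) + 1) ^ (k + 1) / (k : ℝ) ^ k := by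
    have : 1 - 1 / ((k : ℝ) + 1) = k / (k + 1) := by field_simp; ring
    rw [this, div_pow]
    field_simp
    try ring
  unfold fdim
  split_ifs with hc
  · rw [one_le_div (by positivity)]
    calc (k : ℝ) ^ k ≤ ((k : ℝ) + 1) ^ k := pow_le_pow_left₀ hk0.le (by linarith) k
      _ ≤ ((k : ℝ) + 1) ^ (k + 1) := pow_le_pow_right₀ (by linarith) (by omega)
  · obtain ⟨w, hw, hs⟩ := exists_realizer k n (1 / ((k : ℝ) + 1)) (by positivity)
      (by rw [div_lt_one (by linarith)]; linarith)
    rw [← e, ← hs]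
    refine csInf_le ⟨0, ?_⟩ ⟨w, hw, rfl⟩
    rintro s ⟨w', hw', rfl⟩
    exact sum_nonneg fun l _ => hw'.1 l

/-- **The conjecture fails for every `k ≥ 2`.**

For all `1 ≤ k ≤ n - 2` the fractional dimension of `P(k, n)` is at most
`(k + 1) ^ (k + 1) / k ^ k`; hence it is not true that for every `k ≥ 1` and `ε > 0` one has
`fdim (P(k, n)) > 2 ^ (k + 1) - ε` for all large `n` (already `fdim (P(2, n)) ≤ 27 / 4 < 8`). -/
theorem result :
    (∀ k n : ℕ, 1 ≤ k → k + 2 ≤ n → fdim (P k n) ≤ ((k : ℝ) + 1) ^ (k + 1) / (k : ℝ) ^ k) ∧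
    ¬ (∀ k : ℕ, 1 ≤ k → ∀ ε : ℝ, 0 < ε → ∃ n₀ : ℕ, ∀ n : ℕ, n₀ ≤ n → k + 2 ≤ n →
        (2 : ℝ) ^ (k + 1) - ε < fdim (P k n)) := by
  refine ⟨fun k n hk _ => fdim_le k n hk, fun H => ?_⟩
  obtain ⟨n₀, hn⟩ := H 2 (by norm_num) 1 one_pos
  have h1 := hn (n₀ + 4) (by omega) (by omega)
  have h2 := fdim_le 2 (n₀ + 4) (by norm_num)
  norm_num at h1 h2
  linarith

end Pool.Agent.Results.MP_4df60b_co.BiasedCoins
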